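import Mathlib

/-!
The projection formula for norms: the norm of a value of `x² - t y²`, `t` in the ground field, is
again such a value.
-/

set_option autoImplicit false

namespace Pool.Agent.Q312.ET

open Matrix

theorem norm_form {F K : Type*} [Field F] [Field K] [Algebra F K] [FiniteDimensional F K]
    (t : F) (x y : K) : ∃ u v : F,
      Algebra.norm F (x ^ 2 - algebraMap F K t * y ^ 2) = u ^ 2 - t * v ^ 2 := by
  classical
  let b := Module.finBasis F K
  let M := Algebra.leftMulMatrix b
  let A := QuadraticAlgebra F t 0
  let f : F →+* A := algebraMap F A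
  let w : A := QuadraticAlgebra.omega
  have hw : w * w = f t := by
    show (QuadraticAlgebra.omega : QuadraticAlgebra F t 0) * QuadraticAlgebra.omega = _
    rw [QuadraticAlgebra.omega_mul_omega_eq_mk]
    rfl
  let P : Matrix _ _ A := (M x).map f + w • (M y).map f
  let P' : Matrix _ _ A := (M x).map f - w • (M y).map f
  have hcomm : M x * M y = M y * M x := by rw [← map_mul, ← map_mul, mul_comm]
  have hmul : P * P' = (M (x ^ 2 - algebraMap F K t * y ^ 2)).map f := by
    have e1 : (M x).map f * (M y).map f = (M y).map f * (M x).map f := by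
      rw [← Matrix.map_mul, ← Matrix.map_mul, hcomm]
    have e2 : (M (x ^ 2 - algebraMap F K t * y ^ 2)).map f =
        (M x).map f * (M x).map f - (w * w) • ((M y).map f * (M y).map f) := by
      have e3 : M (x ^ 2 - algebraMap F K t * y ^ 2) = M x * M x - t • (M y * M y) := by
        rw [map_sub, pow_two, map_mul, map_mul, pow_two, map_mul, AlgHom.commutes,
          Algebra.algebraMap_eq_smul_one, smul_mul_assoc, one_mul]
      rw [e3, hw]
      refine Matrix.ext fun i j => ?_
      simp only [Matrix.map_apply, Matrix.sub_apply, Matrix.smul_apply, Matrix.mul_apply,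
        map_sub, smul_eq_mul, map_mul, map_sum]
    rw [e2]
    show ((M x).map f + w • (M y).map f) * ((M x).map f - w • (M y).map f) = _
    rw [add_mul, mul_sub, mul_sub]
    rw [smul_mul_assoc, smul_mul_assoc, mul_smul_comm, mul_smul_comm, e1, smul_smul]
    abel
  have hdet : P.det * P'.det = f (Algebra.norm F (x ^ 2 - algebraMap F K t * y ^ 2)) := by
    rw [← Matrix.det_mul, hmul, Algebra.norm_eq_matrix_det b, RingHom.map_det]
    rfl
  have hstar : star P.det = P'.det := by
    have h1 : starRingEnd A P.det = ((starRingEnd A).mapMatrix P).det := RingHom.map_det _ _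
    have h2 : (starRingEnd A).mapMatrix P = P' := by
      refine Matrix.ext fun i j => ?_
      show star (f (M x i j) + w * f (M y i j)) = f (M x i j) - w * f (M y i j)
      have h3 : ∀ r : F, star (f r) = f r := by
        intro r
        ext
        · show (star (⟨r, 0⟩ : QuadraticAlgebra F t 0)).re = r
          simp
        · show (star (⟨r, 0⟩ : QuadraticAlgebra F t 0)).im = 0
          simp
      have h4 : star w = -w := by
        show star (⟨0, 1⟩ : QuadraticAlgebra F t 0) = -⟨0, 1⟩
        ext <;> simp
      rw [star_add, star_mul, h3, h3, h4]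
      ring
    rw [← h2, ← h1]
    rfl
  rw [← hstar] at hdet
  have h5 := QuadraticAlgebra.algebraMap_norm_eq_mul_star P.det
  rw [hdet] at h5
  have h6 : QuadraticAlgebra.norm P.det =
      Algebra.norm F (x ^ 2 - algebraMap F K t * y ^ 2) := by
    have h7 := congrArg QuadraticAlgebra.re h5
    exact h7
  rw [← h6, QuadraticAlgebra.norm_def]
  exact ⟨P.det.re, P.det.im, by ring⟩

end Pool.Agent.Q312.ET
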