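import Pool.Agent.Q312.ET.Ret
import Pool.Agent.Q312.ET.Norm
import Pool.Agent.Q300.FT.One

/-!
Elementary type descends along extensions of fields with a transfer.
-/

set_option autoImplicit false

namespace Pool.Agent.Q312.ET

open Pool.Agent.H315R3.ETC Pool.Agent.TH188.ET Pool.Agent.Q300.FT IntermediateField

section retract

variable {F K : Type*} [Field F] [Field K]

/-- the map induced on the quotients of two surjections -/
noncomputable def ind {A B C : Type*} [Group A] [Group B] [Group C] (f : A →* B)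
    (hf : Function.Surjective f) (g : A →* C) (hg : f.ker ≤ g.ker) : B →* C :=
  f.liftOfRightInverse (Function.surjInv hf) (Function.rightInverse_surjInv hf) ⟨g, hg⟩

theorem ind_apply {A B C : Type*} [Group A] [Group B] [Group C] (f : A →* B)
    (hf : Function.Surjective f) (g : A →* C) (hg : f.ker ≤ g.ker) (a : A) :
    ind f hf g hg (f a) = g a :=
  f.liftOfRightInverse_comp_apply _ (Function.rightInverse_surjInv hf) ⟨g, hg⟩ a

theorem finSq_of (hK : FinSq K) (i : Fˣ →* Kˣ) (N : Kˣ →* Fˣ ⧸ squares F)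
    (hN : ∀ t, N (i t) = QuotientGroup.mk t) : FinSq F := by
  have hk : squares K ≤ N.ker := by
    rintro _ ⟨b, rfl⟩
    show N (b ^ 2) = 1
    obtain ⟨c, hc⟩ := QuotientGroup.mk_surjective (N b)
    rw [map_pow, ← hc, ← QuotientGroup.mk_pow]
    exact (QuotientGroup.eq_one_iff _).2 ⟨c, rfl⟩
  have : Finite (Kˣ ⧸ squares K) := hK
  refine Finite.of_surjective (QuotientGroup.lift (squares K) N hk) ?_
  intro x
  obtain ⟨t, rfl⟩ := QuotientGroup.mk_surjective x
  exact ⟨QuotientGroup.mk (i t), hN t⟩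

theorem field_retract (h2F : (2 : F) ≠ 0) (h2K : (2 : K) ≠ 0) (hF : FinSq F) (hK : FinSq K)
    (i : Fˣ →* Kˣ) (N : Kˣ →* Fˣ ⧸ squares F) (hN : ∀ t, N (i t) = QuotientGroup.mk t)
    (h1 : ∀ a b, NormFrom a b → NormFrom (i a) (i b))
    (h2 : ∀ t b, NormFrom (i t) b → ∃ c : Fˣ, QuotientGroup.mk c = N b ∧ NormFrom t c)
    (hE : ElementaryType K) : ElementaryType F := by
  obtain ⟨S, hS, hSfin, hSq⟩ := exists_structure h2K hK
  obtain ⟨T, hT, hTfin, hTq⟩ := exists_structure h2F hF
  rw [elementary_iff hS] at hE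
  rw [elementary_iff hT]
  obtain ⟨φ, hs, hk, hn, h0, hq⟩ := hS
  obtain ⟨ψ, hs', hk', hn', h0', hq'⟩ := hT
  have hz : ∀ a b : Kˣ, S.q (φ a) (φ b) = S.zero ↔ NormFrom a b := by
    intro a b
    rw [← qiso_one h2K, ← h0, ← map_one φ]
    exact hq a b 1 1
  have hz' : ∀ a b : Fˣ, T.q (ψ a) (ψ b) = T.zero ↔ NormFrom a b := by
    intro a b
    rw [← qiso_one h2F, ← h0', ← map_one ψ]
    exact hq' a b 1 1
  have hsq : squares F ≤ ψ.ker := by
    rintro _ ⟨b, rfl⟩
    exact (hk' _).2 ⟨b, rfl⟩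
  let ρ : Fˣ ⧸ squares F →* T.G := QuotientGroup.lift (squares F) ψ hsq
  have hρ : ∀ c : Fˣ, ρ (QuotientGroup.mk c) = ψ c := fun c => rfl
  have hk1 : ψ.ker ≤ (φ.comp i).ker := by
    intro a ha
    obtain ⟨b, rfl⟩ := (hk' a).1 ha
    show φ (i (b ^ 2)) = 1
    rw [map_pow]
    exact (hk _).2 ⟨i b, rfl⟩
  have hk2 : φ.ker ≤ (ρ.comp N).ker := by
    intro a ha
    obtain ⟨b, rfl⟩ := (hk a).1 ha
    show ρ (N (b ^ 2)) = 1
    rw [map_pow, map_pow, pow_two]
    exact hTq.exp2 _
  let ι : T.G →* S.G := ind ψ hs' (φ.comp i) hk1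
  let M : S.G →* T.G := ind φ hs (ρ.comp N) hk2
  have hι : ∀ a : Fˣ, ι (ψ a) = φ (i a) := fun a => ind_apply ψ hs' (φ.comp i) hk1 a
  have hM : ∀ a : Kˣ, M (φ a) = ρ (N a) := fun a => ind_apply φ hs (ρ.comp N) hk2 a
  refine elem_of_retract hSq hTq hTfin hSfin ι M ?_ ?_ ?_ hE
  · intro t
    obtain ⟨t, rfl⟩ := hs' t
    rw [hι, hM, hN, hρ]
  · intro a b hab
    obtain ⟨a, rfl⟩ := hs' a
    obtain ⟨b, rfl⟩ := hs' b
    rw [hι, hι, hz]
    exact h1 a b ((hz' a b).1 hab)
  · intro t b htb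
    obtain ⟨t, rfl⟩ := hs' t
    obtain ⟨b, rfl⟩ := hs b
    rw [hι, hz] at htb
    obtain ⟨c, hc, hc2⟩ := h2 t b htb
    rw [hM, ← hc, hρ, hz']
    exact hc2

end retract

section alg

variable {F K : Type*} [Field F] [Field K] [Algebra F K]

/-- the norm of `b` from the field generated by `b` -/
noncomputable def nu (F : Type*) {K : Type*} [Field F] [Field K] [Algebra F K] (b : K) : F :=
  (-1) ^ (minpoly F b).natDegree * (minpoly F b).coeff 0

theorem norm_eq_nu (E : IntermediateField F K) [FiniteDimensional F E] (b : E) :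
    Algebra.norm F b = nu F (b : K) ^ Module.finrank F⟮b⟯ E := by
  have hint : IsIntegral F b := Algebra.IsIntegral.isIntegral b
  have h1 := Algebra.PowerBasis.norm_gen_eq_coeff_zero_minpoly (adjoin.powerBasis hint)
  rw [adjoin.powerBasis_gen, adjoin.powerBasis_dim, minpoly_gen] at h1
  have h2 : nu F (b : K) = nu F b := by
    unfold nu
    rw [← IntermediateField.minpoly_eq]
  rw [Algebra.norm_eq_norm_adjoin, h1, h2]
  rfl

theorem nu_ne_zero {b : K} (hb : b ≠ 0) (hint : IsIntegral F b) : nu F b ≠ 0 := by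
  unfold nu
  refine mul_ne_zero (pow_ne_zero _ (neg_ne_zero.2 one_ne_zero)) ?_
  exact minpoly.coeff_zero_ne_zero hint hb

/-- the square class of a nonzero element -/
noncomputable def sc (a : F) (ha : a ≠ 0) : Fˣ ⧸ squares F := QuotientGroup.mk (Units.mk0 a ha)

theorem sc_congr {a b : F} (ha : a ≠ 0) (hb : b ≠ 0) (h : a = b) : sc a ha = sc b hb := by
  subst h
  rfl

theorem sc_mul {a b : F} (ha : a ≠ 0) (hb : b ≠ 0) (hab : a * b ≠ 0) :
    sc (a * b) hab = sc a ha * sc b hb := by
  unfold sc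
  rw [← QuotientGroup.mk_mul, Units.mk0_mul]

theorem sc_pow_odd {a : F} (ha : a ≠ 0) {m : ℕ} (hm : Odd m) (h : a ^ m ≠ 0) :
    sc (a ^ m) h = sc a ha := by
  obtain ⟨k, rfl⟩ := hm
  unfold sc
  rw [QuotientGroup.eq]
  refine ⟨(Units.mk0 a ha ^ k)⁻¹, ?_⟩
  ext
  simp only [Units.val_mul, Units.val_inv_eq_inv_val, Units.val_mk0, Units.val_pow_eq_pow_val,
    powMonoidHom_apply]
  field_simp
  ring

theorem norm_ne_zero' (E : IntermediateField F K) [FiniteDimensional F E] {b : E} (hb : b ≠ 0) :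
    Algebra.norm F b ≠ 0 := Algebra.norm_ne_zero_iff.2 hb

theorem sc_norm (E : IntermediateField F K) [FiniteDimensional F E]
    (hodd : Odd (Module.finrank F E)) {b : E} (hb : b ≠ 0) (h : nu F (b : K) ≠ 0) :
    sc (Algebra.norm F b) (norm_ne_zero' E hb) = sc (nu F (b : K)) h := by
  have hm : Odd (Module.finrank F⟮b⟯ E) := by
    rw [← Module.finrank_mul_finrank F F⟮b⟯ E, Nat.odd_mul] at hodd
    exact hodd.2
  rw [sc_congr (norm_ne_zero' E hb) (pow_ne_zero _ h) (norm_eq_nu E b)]
  exact sc_pow_odd h hm _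

/-- every finite subextension of `K` over `F` has odd degree -/
def OddExt (F K : Type*) [Field F] [Field K] [Algebra F K] : Prop :=
  Algebra.IsAlgebraic F K ∧
    ∀ E : IntermediateField F K, FiniteDimensional F E → Odd (Module.finrank F E)

theorem integral_of (h : OddExt F K) (b : K) : IsIntegral F b :=
  (h.1.isAlgebraic b).isIntegral

/-- the norm classes of the nonzero elements of an odd extension -/
noncomputable def nrm (h : OddExt F K) (b : Kˣ) : Fˣ ⧸ squares F :=
  sc (nu F (b : K)) (nu_ne_zero b.ne_zero (integral_of h b))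

theorem nrm_eq (h : OddExt F K) (E : IntermediateField F K) [FiniteDimensional F E]
    {b : E} (hb : b ≠ 0) (u : Kˣ) (hu : (u : K) = b) :
    nrm h u = sc (Algebra.norm F b) (norm_ne_zero' E hb) := by
  have h0 : nu F (b : K) ≠ 0 := by
    rw [← hu]
    exact nu_ne_zero u.ne_zero (integral_of h u)
  rw [sc_norm E (h.2 E inferInstance) hb h0]
  exact sc_congr _ _ (by rw [hu])

theorem exists_fin (h : OddExt F K) (a b : K) :
    ∃ E : IntermediateField F K, FiniteDimensional F E ∧ a ∈ E ∧ b ∈ E := by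
  have ha : FiniteDimensional F F⟮a⟯ := adjoin.finiteDimensional (integral_of h a)
  have hb : FiniteDimensional F F⟮b⟯ := adjoin.finiteDimensional (integral_of h b)
  refine ⟨F⟮a⟯ ⊔ F⟮b⟯, inferInstance, ?_, ?_⟩
  · exact (le_sup_left : F⟮a⟯ ≤ F⟮a⟯ ⊔ F⟮b⟯) (mem_adjoin_simple_self F a)
  · exact (le_sup_right : F⟮b⟯ ≤ F⟮a⟯ ⊔ F⟮b⟯) (mem_adjoin_simple_self F b)

/-- the norm class as a homomorphism -/
noncomputable def nrmHom (h : OddExt F K) : Kˣ →* Fˣ ⧸ squares F :=
  MonoidHom.mk' (nrm h) (by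
    intro a b
    obtain ⟨E, hE, ha, hb⟩ := exists_fin h (a : K) (b : K)
    have ha0 : (⟨a, ha⟩ : E) ≠ 0 := fun e => a.ne_zero (congrArg Subtype.val e)
    have hb0 : (⟨b, hb⟩ : E) ≠ 0 := fun e => b.ne_zero (congrArg Subtype.val e)
    rw [nrm_eq h E ha0 a rfl, nrm_eq h E hb0 b rfl, nrm_eq h E (mul_ne_zero ha0 hb0) (a * b) rfl,
      ← sc_mul _ _ (mul_ne_zero (norm_ne_zero' E ha0) (norm_ne_zero' E hb0))]
    exact sc_congr _ _ (map_mul _ _ _))

theorem nrm_algebraMap (h : OddExt F K) (t : Fˣ) :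
    nrm h (Units.map (algebraMap F K).toMonoidHom t) = QuotientGroup.mk t := by
  have h1 : nu F (algebraMap F K t) = t := by
    unfold nu
    rw [minpoly.eq_X_sub_C]
    simp
  unfold nrm sc
  congr 1
  ext
  exact h1

theorem two_ne (h2 : (2 : F) ≠ 0) : (2 : K) ≠ 0 := by
  intro h
  apply h2
  apply (algebraMap F K).injective
  rw [map_zero, map_ofNat, h]

theorem odd_proj (h : OddExt F K) (t : Fˣ) (b : Kˣ)
    (htb : NormFrom (Units.map (algebraMap F K).toMonoidHom t) b) :
    ∃ c : Fˣ, QuotientGroup.mk c = nrm h b ∧ NormFrom t c := by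
  obtain ⟨x, y, hxy⟩ := htb
  obtain ⟨E, hE, hx, hy⟩ := exists_fin h x y
  let e : E := (⟨x, hx⟩ : E) ^ 2 - algebraMap F E t * (⟨y, hy⟩ : E) ^ 2
  have he : (b : K) = e := by
    rw [hxy]
    rfl
  have he0 : e ≠ 0 := by
    intro e0
    apply b.ne_zero
    rw [he, e0]
    rfl
  obtain ⟨u, v, huv⟩ := norm_form (K := E) (t : F) (⟨x, hx⟩ : E) (⟨y, hy⟩ : E)
  refine ⟨Units.mk0 (Algebra.norm F e) (norm_ne_zero' E he0), ?_, u, v, huv⟩
  exact (nrm_eq h E he0 b he).symm

theorem odd_sq (h : OddExt F K) {t : F} {s : K} (hs : algebraMap F K t = s ^ 2) :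
    ∃ r : F, t = r ^ 2 := by
  have hint := integral_of h s
  have hfin : FiniteDimensional F F⟮s⟯ := adjoin.finiteDimensional hint
  have hodd := h.2 F⟮s⟯ hfin
  rw [adjoin.finrank hint] at hodd
  have hdvd : minpoly F s ∣ Polynomial.X ^ 2 - Polynomial.C t := by
    apply minpoly.dvd
    simp [hs]
  have hle : (minpoly F s).natDegree ≤ 2 := by
    have := Polynomial.natDegree_le_of_dvd hdvd (Polynomial.X_pow_sub_C_ne_zero (by norm_num) t)
    rwa [Polynomial.natDegree_X_pow_sub_C] at this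
  have h1 : (minpoly F s).natDegree = 1 := by
    obtain ⟨k, hk⟩ := hodd
    omega
  obtain ⟨r, hr⟩ := minpoly.natDegree_eq_one_iff.1 h1
  refine ⟨r, (algebraMap F K).injective ?_⟩
  rw [hs, ← hr, map_pow]

end alg

section place

theorem exists_ext_comm {G E : Type*} [CommGroup G] [CommGroup E] (hG : ∀ x : G, x ^ 2 = 1)
    (hE : ∀ x : E, x ^ 2 = 1) (H : Subgroup G) (f : H →* E) :
    ∃ g : G →* E, ∀ x : H, g x = f x := by
  let mG : Module (ZMod 2) (Additive G) := AddCommGroup.zmodModule (fun x => hG x)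
  let mE : Module (ZMod 2) (Additive E) := AddCommGroup.zmodModule (fun x => hE x)
  let f' : AddSubgroup.toZModSubmodule 2 (Subgroup.toAddSubgroup H) →ₗ[ZMod 2] Additive E :=
    AddMonoidHom.toZModLinearMap 2
      { toFun := fun x => Additive.ofMul (f ⟨Additive.toMul (x : Additive G), x.2⟩)
        map_zero' := f.map_one
        map_add' := fun x y => f.map_mul _ _ }
  obtain ⟨g, hg⟩ := LinearMap.exists_extend f'
  refine ⟨AddMonoidHom.toMultiplicative g.toAddMonoidHom, fun x => ?_⟩
  have := LinearMap.congr_fun hg ⟨Additive.ofMul (x : G), x.2⟩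
  exact this

theorem comm_of_exp2 {G : Type*} [Group G] (hG : ∀ x : G, x ^ 2 = 1) (a b : G) :
    a * b = b * a := by
  have h : ∀ x : G, x⁻¹ = x := fun x => by
    rw [inv_eq_iff_mul_eq_one, ← pow_two]
    exact hG x
  rw [← h (a * b), mul_inv_rev, h, h]

theorem exists_ext {G E : Type*} [iG : Group G] [iE : Group E] (hG : ∀ x : G, x ^ 2 = 1)
    (hE : ∀ x : E, x ^ 2 = 1) (H : Subgroup G) (f : H →* E) :
    ∃ g : G →* E, ∀ x : H, g x = f x :=
  @exists_ext_comm G E { iG with mul_comm := comm_of_exp2 hG }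
    { iE with mul_comm := comm_of_exp2 hE } hG hE H f

variable {F K L : Type*} [Field F] [Field K] [Field L] [Algebra F K] [Algebra F L]

theorem exp2_quot {k : Type*} [Field k] (x : kˣ ⧸ squares k) : x ^ 2 = 1 := by
  induction x using QuotientGroup.induction_on with
  | H a =>
    rw [← QuotientGroup.mk_pow]
    exact (QuotientGroup.eq_one_iff _).2 ⟨a, rfl⟩

theorem unit_of_sq (A : ValuationSubring K) {z : Kˣ} (hz : z ^ 2 ∈ A.unitGroup) :
    z ∈ A.unitGroup := by
  rw [ValuationSubring.mem_unitGroup_iff] at hz ⊢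
  rw [Units.val_pow_eq_pow_val, map_pow] at hz
  exact (pow_eq_one_iff_of_nonneg (zero_le (a := A.valuation (z : K))) two_ne_zero).1 hz

/-- the norm classes of the units of a valuation ring -/
noncomputable def unm (h : OddExt F L) (A : ValuationSubring K) (π : A →+* L) :
    A.unitGroup →* Fˣ ⧸ squares F :=
  (nrmHom h).comp ((Units.map π.toMonoidHom).comp A.unitGroupMulEquiv.toMonoidHom)

omit [Algebra F K] in
theorem exists_N (h : OddExt F L) (A : ValuationSubring K) (π : A →+* L) :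
    ∃ N : Kˣ →* Fˣ ⧸ squares F, ∀ u : A.unitGroup, N u = unm h A π u := by
  let q := (QuotientGroup.mk' (squares K)).subgroupMap A.unitGroup
  have hq : Function.Surjective q := MonoidHom.subgroupMap_surjective _ _
  have hk : q.ker ≤ (unm h A π).ker := by
    intro u hu
    have h1 : (QuotientGroup.mk' (squares K)) (u : Kˣ) = 1 := congrArg Subtype.val hu
    obtain ⟨z, hz⟩ := (QuotientGroup.eq_one_iff _).1 h1
    have hz' : z ^ 2 = (u : Kˣ) := hz
    have hzu : z ∈ A.unitGroup := unit_of_sq A (by rw [hz']; exact u.2)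
    have h2 : u = (⟨z, hzu⟩ : A.unitGroup) ^ 2 := Subtype.ext hz'.symm
    rw [MonoidHom.mem_ker, h2, map_pow]
    exact exp2_quot _
  obtain ⟨g, hg⟩ := exists_ext (fun x => exp2_quot x) (fun x => exp2_quot x) _
    (ind q hq (unm h A π) hk)
  refine ⟨g.comp (QuotientGroup.mk' (squares K)), fun u => ?_⟩
  have h3 := hg (q u)
  rw [ind_apply] at h3
  exact h3

theorem normFrom_of_sq {k : Type*} [Field k] (h2 : (2 : k) ≠ 0) {t c : kˣ} {r : k}
    (ht : (t : k) = r ^ 2) : NormFrom t c := by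
  have hr : r ≠ 0 := by
    rintro rfl
    apply t.ne_zero
    rw [ht]
    ring
  refine ⟨(c + 1) / 2, (c - 1) / (2 * r), ?_⟩
  rw [ht]
  field_simp
  ring

theorem place_descent (h2 : (2 : F) ≠ 0) (h : OddExt F L) (hK : FinSq K)
    (A : ValuationSubring K) (π : A →+* L) [IsLocalHom π]
    (hA : ∀ t : F, ∃ ht : algebraMap F K t ∈ A, π ⟨algebraMap F K t, ht⟩ = algebraMap F L t)
    (hE : ElementaryType K) : FinSq F ∧ ElementaryType F := by
  obtain ⟨N, hN⟩ := exists_N h A π
  have hunit : ∀ (w : A) (z : Kˣ) (_ : (z : K) = w) (v : Lˣ), (v : L) = π w → N z = nrm h v := by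
    intro w z hz v hv
    have hw : IsUnit w := by
      apply isUnit_of_map_unit π
      rw [← hv]
      exact v.isUnit
    obtain ⟨w', hw'⟩ := hw
    have h1 : A.unitGroupMulEquiv (A.unitGroupMulEquiv.symm w') = w' := by simp
    have h3 : ((A.unitGroupMulEquiv.symm w' : A.unitGroup) : Kˣ) = z := by
      ext
      rw [ValuationSubring.coe_unitGroupMulEquiv_symm_apply, hw', hz]
    rw [← h3, hN]
    show nrm h (Units.map π.toMonoidHom (A.unitGroupMulEquiv (A.unitGroupMulEquiv.symm w'))) = _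
    rw [h1]
    congr 1
    ext
    rw [hv, ← hw']
    rfl
  have hNt : ∀ t : Fˣ, N (Units.map (algebraMap F K).toMonoidHom t) = QuotientGroup.mk t := by
    intro t
    obtain ⟨ht, hπ⟩ := hA t
    rw [hunit ⟨algebraMap F K t, ht⟩ _ rfl (Units.map (algebraMap F L).toMonoidHom t) hπ.symm]
    exact nrm_algebraMap h t
  have hF : FinSq F := finSq_of hK (Units.map (algebraMap F K).toMonoidHom) N hNt
  refine ⟨hF, field_retract h2 (two_ne (F := F) h2) hF hK
    (Units.map (algebraMap F K).toMonoidHom) N hNt ?_ ?_ hE⟩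
  · rintro a b ⟨x, y, hxy⟩
    refine ⟨algebraMap F K x, algebraMap F K y, ?_⟩
    show algebraMap F K b = _
    rw [hxy, map_sub, map_mul, map_pow, map_pow]
    rfl
  · rintro t b ⟨x, y, hxy⟩
    by_cases hsq : ∃ r : F, (t : F) = r ^ 2
    · obtain ⟨r, hr⟩ := hsq
      obtain ⟨c, hc⟩ := QuotientGroup.mk_surjective (N b)
      exact ⟨c, hc, normFrom_of_sq h2 hr⟩
    · have hns : ∀ s : L, algebraMap F L t ≠ s ^ 2 := fun s hs => hsq (odd_sq h hs)
      obtain ⟨ht, hπ⟩ := hA t
      have key : ∀ (z : Kˣ) (x' y' : A), (x' = 1 ∨ y' = 1) →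
          (b : K) = (z : K) ^ 2 * ((x' : K) ^ 2 - algebraMap F K t * (y' : K) ^ 2) →
          ∃ c : Fˣ, QuotientGroup.mk c = N b ∧ NormFrom t c := by
        intro z x' y' h1 hb
        let w : A := x' ^ 2 - ⟨algebraMap F K t, ht⟩ * y' ^ 2
        have hw : (w : K) = (x' : K) ^ 2 - algebraMap F K t * (y' : K) ^ 2 := rfl
        have hπw : π w = (π x') ^ 2 - algebraMap F L t * (π y') ^ 2 := by
          show π (x' ^ 2 - ⟨algebraMap F K t, ht⟩ * y' ^ 2) = _
          rw [map_sub, map_mul, map_pow, map_pow, hπ]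
        have hne : π w ≠ 0 := by
          rw [hπw]
          intro h0
          rcases h1 with rfl | rfl
          · rw [map_one] at h0
            have hy : π y' ≠ 0 := by
              intro hy
              rw [hy] at h0
              simp at h0
            apply hns (π y')⁻¹
            field_simp
            linear_combination -h0
          · rw [map_one] at h0
            apply hns (π x')
            linear_combination -h0
        have hw0 : (w : K) ≠ 0 := by
          intro h0
          apply hne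
          have : w = 0 := Subtype.ext h0
          rw [this, map_zero]
        have hNb : N b = nrm h (Units.mk0 (π w) hne) := by
          rw [← hunit w (Units.mk0 (w : K) hw0) rfl (Units.mk0 (π w) hne) rfl]
          have h4 : b = z ^ 2 * Units.mk0 (w : K) hw0 := by
            ext
            rw [Units.val_mul, Units.val_pow_eq_pow_val, Units.val_mk0, hb, hw]
          have h5 : N (z ^ 2) = 1 := by
            rw [map_pow]
            exact exp2_quot (N z)
          rw [h4, map_mul, h5]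
          exact one_mul (N (Units.mk0 (w : K) hw0))
        rw [hNb]
        exact odd_proj h t _ ⟨π x', π y', hπw⟩
      have hb0 : (b : K) ≠ 0 := b.ne_zero
      have hxy' : (b : K) = x ^ 2 - algebraMap F K t * y ^ 2 := hxy
      by_cases hx : x = 0
      · have hy : y ≠ 0 := by
          rintro rfl
          apply hb0
          rw [hxy', hx]
          ring
        refine key (Units.mk0 y hy) 0 1 (Or.inr rfl) ?_
        rw [hxy', hx, Units.val_mk0]
        push_cast
        ring
      · rcases A.mem_or_inv_mem (y / x) with hm | hm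
        · refine key (Units.mk0 x hx) 1 ⟨y / x, hm⟩ (Or.inl rfl) ?_
          rw [hxy', Units.val_mk0]
          push_cast
          field_simp
        · by_cases hy : y = 0
          · refine key (Units.mk0 x hx) 1 0 (Or.inl rfl) ?_
            rw [hxy', hy, Units.val_mk0]
            push_cast
            ring
          · refine key (Units.mk0 y hy) ⟨(y / x)⁻¹, hm⟩ 1 (Or.inr rfl) ?_
            rw [hxy', Units.val_mk0]
            push_cast
            field_simp

theorem odd_descent (h2 : (2 : F) ≠ 0) (h : OddExt F K) (hK : FinSq K)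
    (hE : ElementaryType K) : FinSq F ∧ ElementaryType F := by
  have hl : IsLocalHom ((⊤ : ValuationSubring K).subtype) := by
    refine ⟨fun a ha => ?_⟩
    have h0 : (a : K) ≠ 0 := ha.ne_zero
    refine ⟨⟨a, ⟨(a : K)⁻¹, ValuationSubring.mem_top _⟩, ?_, ?_⟩, rfl⟩
    · exact Subtype.ext (mul_inv_cancel₀ h0)
    · exact Subtype.ext (inv_mul_cancel₀ h0)
  exact place_descent (L := K) h2 h hK ⊤ ((⊤ : ValuationSubring K).subtype)
    (fun t => ⟨ValuationSubring.mem_top _, rfl⟩) hE

end place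

end Pool.Agent.Q312.ET
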