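import Pool.Agent.Results.MP_d26ff6_al.SymbolExtension

/-!
Transfer retracts of quaternionic structures of elementary type.
-/

set_option autoImplicit false

namespace Pool.Agent.Q312.ET

open Pool.Agent.H315R3.ETC Pool.Agent.Results.MP_d26ff6_al.SymbolExtension

theorem elem_of_retract {S T : QData} (hS : IsQuat S) (hT : IsQuat T) (hTf : Finite T.G)
    (hSf : Finite S.G)
    (ι : T.G →* S.G) (N : S.G →* T.G) (hN : ∀ t, N (ι t) = t)
    (h1 : ∀ a b, T.q a b = T.zero → S.q (ι a) (ι b) = S.zero)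
    (h2 : ∀ t b, S.q (ι t) b = S.zero → T.q t (N b) = T.zero) (hE : Elem S) : Elem T := by
  have hSE : SymbolsExtend S := (result S hS hSf).1.1 hE
  rw [(result T hT hTf).1]
  intro W χ hχ
  obtain ⟨c1, c2, c3⟩ := hχ
  have hmem : ∀ a ∈ W.map ι, N a ∈ W := by
    rintro _ ⟨w, hw, rfl⟩
    rw [hN]
    exact hw
  obtain ⟨χ', ⟨d1, d2, d3⟩, h3⟩ := hSE (W.map ι) (fun a b => χ (N a) (N b)) (by
    refine ⟨?_, ?_, ?_⟩
    · intro a ha b hb c
      show χ (N (a * b)) (N c) = χ (N a) (N c) + χ (N b) (N c)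
      rw [map_mul]
      exact c1 _ (hmem a ha) _ (hmem b hb) _
    · intro a ha b c
      show χ (N a) (N (b * c)) = χ (N a) (N b) + χ (N a) (N c)
      rw [map_mul]
      exact c2 _ (hmem a ha) _ _
    · rintro _ ⟨w, hw, rfl⟩ b hb
      show χ (N (ι w)) (N b) = 0
      rw [hN]
      exact c3 w hw _ (h2 w b hb))
  refine ⟨fun a b => χ' (ι a) (ι b), ⟨?_, ?_, ?_⟩, ?_⟩
  · intro a _ b _ c
    show χ' (ι (a * b)) (ι c) = χ' (ι a) (ι c) + χ' (ι b) (ι c)
    rw [map_mul]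
    exact d1 _ (Subgroup.mem_top _) _ (Subgroup.mem_top _) _
  · intro a _ b c
    show χ' (ι a) (ι (b * c)) = χ' (ι a) (ι b) + χ' (ι a) (ι c)
    rw [map_mul]
    exact d2 _ (Subgroup.mem_top _) _ _
  · intro a _ b hab
    exact d3 _ (Subgroup.mem_top _) _ (h1 a b hab)
  · intro a ha b
    show χ' (ι a) (ι b) = χ a b
    rw [h3 (ι a) (Subgroup.mem_map_of_mem ι ha) (ι b)]
    show χ (N (ι a)) (N (ι b)) = χ a b
    rw [hN, hN]

/-- the fixed structure of a group `Γ` acting on `S.G` -/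
def fix (S : QData) (Γ : Type) [Group Γ] [MulDistribMulAction Γ S.G]
    (hneg : ∀ γ : Γ, γ • S.neg = S.neg) : QData where
  G := FixedPoints.subgroup Γ S.G
  Q := S.Q
  neg := ⟨S.neg, hneg⟩
  q := fun a b => S.q a.1 b.1
  zero := S.zero

section fixed

variable {S : QData} {Γ : Type} [Group Γ] [Fintype Γ] [MulDistribMulAction Γ S.G]

/-- the product of the conjugates -/
def nm (S : QData) (Γ : Type) [Group Γ] [Fintype Γ] [MulDistribMulAction Γ S.G] :
    S.G →* FixedPoints.subgroup Γ S.G where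
  toFun b := ⟨∏ γ : Γ, γ • b, by
    intro δ
    rw [Finset.smul_prod']
    exact Fintype.prod_equiv (Equiv.mulLeft δ) _ _ fun γ => by
      rw [Equiv.coe_mulLeft, mul_smul]⟩
  map_one' := by
    apply Subtype.ext
    show ∏ γ : Γ, γ • (1 : S.G) = 1
    simp
  map_mul' a b := by
    apply Subtype.ext
    show ∏ γ : Γ, γ • (a * b) = (∏ γ : Γ, γ • a) * ∏ γ : Γ, γ • b
    rw [← Finset.prod_mul_distrib]
    exact Finset.prod_congr rfl fun γ _ => smul_mul' γ a b

/-- the elements orthogonal to `a` -/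
def vg (hS : IsQuat S) (a : S.G) : Submonoid S.G where
  carrier := {x | S.q a x = S.zero}
  one_mem' := by
    show S.q a 1 = S.zero
    have h := (hS.qs3 a 1 1).1 rfl
    rwa [mul_one] at h
  mul_mem' := by
    intro x y hx hy
    exact (hS.qs3 a x y).1 (hx.trans hy.symm)

theorem pow_odd (hS : IsQuat S) (a : S.G) {n : ℕ} (hn : Odd n) : a ^ n = a := by
  obtain ⟨m, rfl⟩ := hn
  rw [pow_succ, pow_mul, pow_two, hS.exp2, one_pow, one_mul]

theorem nm_fixed (hS : IsQuat S) (hodd : Odd (Fintype.card Γ))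
    (t : FixedPoints.subgroup Γ S.G) : nm S Γ t.1 = t := by
  apply Subtype.ext
  show ∏ γ : Γ, γ • t.1 = t.1
  have h1 : ∀ γ : Γ, γ • t.1 = t.1 := t.2
  rw [Finset.prod_congr rfl fun γ _ => h1 γ, Finset.prod_const, Finset.card_univ]
  exact pow_odd hS _ hodd

theorem proj (hS : IsQuat S)
    (hact : ∀ (γ : Γ) (a b : S.G), S.q a b = S.zero → S.q (γ • a) (γ • b) = S.zero)
    (t : FixedPoints.subgroup Γ S.G) (b : S.G) (h : S.q t.1 b = S.zero) :
    S.q t.1 (nm S Γ b).1 = S.zero := by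
  have h1 : ∏ γ : Γ, γ • b ∈ vg hS t.1 := by
    refine Submonoid.prod_mem _ fun γ _ => ?_
    have h2 := hact γ t.1 b h
    have h3 : γ • t.1 = t.1 := t.2 γ
    rw [h3] at h2
    exact h2
  exact h1

theorem isQuat_fix (hS : IsQuat S) (hodd : Odd (Fintype.card Γ))
    (hneg : ∀ γ : Γ, γ • S.neg = S.neg)
    (hact : ∀ (γ : Γ) (a b : S.G), S.q a b = S.zero → S.q (γ • a) (γ • b) = S.zero) :
    IsQuat (fix S Γ hneg) where
  exp2 a := Subtype.ext (hS.exp2 a.1)
  qs1 a := hS.qs1 a.1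
  qs2 a b := hS.qs2 a.1 b.1
  qs3 a b c := hS.qs3 a.1 b.1 c.1
  qs4 a b c d h := by
    obtain ⟨x, h1, h2⟩ := hS.qs4 a.1 b.1 c.1 d.1 h
    have key : ∀ a b : FixedPoints.subgroup Γ S.G, S.q a.1 b.1 = S.q a.1 x →
        S.q a.1 b.1 = S.q a.1 (nm S Γ x).1 := by
      intro a b hab
      rw [hS.qs3] at hab ⊢
      have h3 := proj hS hact a _ hab
      have h4 : nm S Γ (b.1 * x) = b * nm S Γ x := by
        rw [map_mul, nm_fixed hS hodd]
      rw [h4] at h3
      exact h3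
    exact ⟨nm S Γ x, key a b h1, key c d h2⟩

theorem elem_fix (hS : IsQuat S) (hSf : Finite S.G) (hodd : Odd (Fintype.card Γ))
    (hneg : ∀ γ : Γ, γ • S.neg = S.neg)
    (hact : ∀ (γ : Γ) (a b : S.G), S.q a b = S.zero → S.q (γ • a) (γ • b) = S.zero)
    (hE : Elem S) : Elem (fix S Γ hneg) :=
  elem_of_retract hS (isQuat_fix hS hodd hneg hact)
    (Finite.of_injective (Subtype.val : FixedPoints.subgroup Γ S.G → S.G) Subtype.val_injective)
    hSf (FixedPoints.subgroup Γ S.G).subtype (nm S Γ) (nm_fixed hS hodd) (fun _ _ h => h)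
    (fun t b h => proj hS hact t b h) hE

end fixed

end Pool.Agent.Q312.ET
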